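import Pool.Agent.Helper26.AL.GoalsA

/-!
Project AL (MP_af6c86_pr), packet CXN: numbers of edges of complex graphs.
-/

set_option autoImplicit false

namespace Pool.Agent.Helper49.AL

open Finset Pool.Agent.Helper26.AF Pool.Agent.Helper26.AL

section

variable {V : Type} [Fintype V] [DecidableEq V] (G : SimpleGraph V)

open Classical in
/-- the vertex set of a component as a finset -/
noncomputable def cs (c : G.ConnectedComponent) : Finset V :=
  univ.filter (fun v => G.connectedComponentMk v = c)

theorem mem_cs (c : G.ConnectedComponent) (v : V) :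
    v ∈ cs G c ↔ G.connectedComponentMk v = c := by
  simp [cs]

theorem isComp_cs (c : G.ConnectedComponent) : IsComp G (cs G c) := by
  refine ⟨c, ?_⟩
  ext v
  rw [mem_coe, mem_cs]
  rfl

theorem eq_cs {Q : Finset V} (h : IsComp G Q) : ∃ c, Q = cs G c := by
  obtain ⟨c, hc⟩ := h
  refine ⟨c, ?_⟩
  ext v
  rw [mem_cs, ← mem_coe, ← hc]
  rfl

/-- the component of an edge -/
noncomputable def ecm (e : Sym2 V) : G.ConnectedComponent := G.connectedComponentMk (Quot.out e).1

theorem ecm_eq (e : Sym2 V) (he : e ∈ G.edgeSet) (v : V) (hv : v ∈ e) :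
    G.connectedComponentMk v = ecm G e := by
  have h0 : s((Quot.out e).1, (Quot.out e).2) = e := Quot.out_eq e
  have hE : ecm G e = G.connectedComponentMk (Quot.out e).1 := rfl
  rw [hE]
  generalize (Quot.out e).1 = a at h0 ⊢
  generalize (Quot.out e).2 = b at h0
  subst h0
  rcases Sym2.mem_iff.1 hv with h | h
  · rw [h]
  · rw [h]
    have h1 : G.Adj a b := he
    exact SimpleGraph.ConnectedComponent.sound h1.symm.reachable

open Classical in
theorem eIn_cs (c : G.ConnectedComponent) :
    eIn G (cs G c) = #((univ.filter (fun e : Sym2 V => e ∈ G.edgeSet)).filter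
      (fun e => ecm G e = c)) := by
  rw [eIn, Nat.card_eq_fintype_card, Fintype.card_subtype]
  congr 1
  ext e
  simp only [mem_filter, mem_univ, true_and, mem_cs]
  constructor
  · rintro ⟨h1, h2⟩
    refine ⟨h1, ?_⟩
    have h3 : (Quot.out e).1 ∈ e := by
      have h0 : s((Quot.out e).1, (Quot.out e).2) = e := Quot.out_eq e
      generalize (Quot.out e).1 = a at h0 ⊢
      generalize (Quot.out e).2 = b at h0
      rw [← h0]
      exact Sym2.mem_mk_left _ _
    rw [← ecm_eq G e h1 _ h3]
    exact h2 _ h3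
  · rintro ⟨h1, h2⟩
    exact ⟨h1, fun v hv => by rw [ecm_eq G e h1 v hv, h2]⟩

open Classical in
theorem ne_sum [Fintype G.ConnectedComponent] :
    ne G = ∑ c : G.ConnectedComponent, eIn G (cs G c) := by
  have h1 : ne G = #(univ.filter (fun e : Sym2 V => e ∈ G.edgeSet)) := by
    rw [ne, Nat.card_eq_fintype_card, ← Fintype.card_subtype]
  rw [h1, Finset.card_eq_sum_card_fiberwise (f := ecm G) (t := univ) (fun _ _ => by simp)]
  exact Finset.sum_congr rfl fun c _ => (eIn_cs G c).symm

open Classical in
theorem card_sum [Fintype G.ConnectedComponent] :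
    Fintype.card V = ∑ c : G.ConnectedComponent, #(cs G c) := by
  rw [← Finset.card_univ, Finset.card_eq_sum_card_fiberwise
    (f := fun v => G.connectedComponentMk v) (t := univ) (fun _ _ => by simp)]
  rfl

end

/-- **CXN** -/
theorem goalCXN : Pool.Agent.Helper26.AL.StmtCXN := by
  classical
  intro V _ _ G hC
  have hI : Fintype G.ConnectedComponent := Fintype.ofFinite _
  have hc : ∀ c, #(cs G c) + 1 ≤ eIn G (cs G c) := fun c => hC _ (isComp_cs G c)
  have h1 := ne_sum G
  have h2 := card_sum G
  refine ⟨?_, fun hV => ?_, fun Q hQ => ?_⟩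
  · rw [h1, h2]
    exact Finset.sum_le_sum fun c _ => by have := hc c; omega
  · obtain ⟨v⟩ := hV
    have h3 : ∑ c : G.ConnectedComponent, (#(cs G c) + 1) ≤ ∑ c, eIn G (cs G c) :=
      Finset.sum_le_sum fun c _ => hc c
    rw [Finset.sum_add_distrib, ← h1, ← h2] at h3
    have h4 : 1 ≤ ∑ _c : G.ConnectedComponent, 1 := by
      rw [Finset.sum_const, smul_eq_mul, mul_one, Finset.card_univ]
      exact Fintype.card_pos_iff.2 ⟨G.connectedComponentMk v⟩
    omega
  · obtain ⟨c₀, rfl⟩ := eq_cs G hQ
    have e1 := Finset.add_sum_erase univ (fun c => #(cs G c)) (Finset.mem_univ c₀)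
    have e2 := Finset.add_sum_erase univ (fun c => eIn G (cs G c)) (Finset.mem_univ c₀)
    have e3 : ∑ c ∈ univ.erase c₀, #(cs G c) ≤ ∑ c ∈ univ.erase c₀, eIn G (cs G c) :=
      Finset.sum_le_sum fun c _ => by have := hc c; omega
    omega

end Pool.Agent.Helper49.AL
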