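import Pool.Agent.Helper26.AL.GoalsA

/-!
Project AL (MP_af6c86_pr), packet LFG: removal of a leaf of an induced subgraph.
-/

set_option autoImplicit false

namespace Pool.Agent.Helper49.AL

open Finset Pool.Agent.Helper26.AF Pool.Agent.Helper26.AL

/-- the index of an element -/
noncomputable def ix {n : ℕ} (W : Finset (Fin n)) (x : Fin n) (hx : x ∈ W) : Fin #W :=
  (W.orderIsoOfFin rfl).symm ⟨x, hx⟩

theorem emb_ix {n : ℕ} (W : Finset (Fin n)) (x : Fin n) (hx : x ∈ W) :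
    W.orderEmbOfFin rfl (ix W x hx) = x := by
  have h : ((W.orderIsoOfFin rfl) (ix W x hx) : Fin n) = x := by
    rw [ix, OrderIso.apply_symm_apply]
  exact h

theorem ix_eq {n : ℕ} (W : Finset (Fin n)) (x : Fin n) (hx : x ∈ W) (v : Fin #W)
    (h : W.orderEmbOfFin rfl v = x) : v = ix W x hx := by
  apply (W.orderEmbOfFin rfl).injective
  rw [h, emb_ix]

/-- the embedding of the indices -/
noncomputable def em {n : ℕ} (W : Finset (Fin n)) (x : Fin n) : Fin #(W.erase x) ↪ Fin #W where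
  toFun i := ix W ((W.erase x).orderEmbOfFin rfl i)
    (mem_of_mem_erase ((W.erase x).orderEmbOfFin_mem rfl i))
  inj' := by
    intro i j h
    have h1 := congrArg (W.orderEmbOfFin rfl) h
    simp only [emb_ix] at h1
    exact ((W.erase x).orderEmbOfFin rfl).injective h1

theorem emb_em {n : ℕ} (W : Finset (Fin n)) (x : Fin n) (i : Fin #(W.erase x)) :
    W.orderEmbOfFin rfl (em W x i) = (W.erase x).orderEmbOfFin rfl i := emb_ix _ _ _

theorem range_em {n : ℕ} (W : Finset (Fin n)) (x : Fin n) (hx : x ∈ W) (v : Fin #W) :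
    v ∈ Set.range (em W x) ↔ v ≠ ix W x hx := by
  constructor
  · rintro ⟨i, rfl⟩ h
    have h1 := congrArg (W.orderEmbOfFin rfl) h
    rw [emb_em, emb_ix] at h1
    have h2 := (W.erase x).orderEmbOfFin_mem rfl i
    rw [h1] at h2
    exact notMem_erase x W h2
  · intro h
    have h1 : W.orderEmbOfFin rfl v ∈ W.erase x := by
      refine mem_erase.2 ⟨fun h2 => h (ix_eq W x hx v h2), W.orderEmbOfFin_mem rfl v⟩
    have h2 : W.orderEmbOfFin rfl v ∈ Set.range ((W.erase x).orderEmbOfFin rfl) := by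
      rw [Finset.range_orderEmbOfFin]
      exact h1
    obtain ⟨i, hi⟩ := h2
    refine ⟨i, (W.orderEmbOfFin rfl).injective ?_⟩
    rw [emb_em, hi]

theorem gi_erase {n : ℕ} (G : SimpleGraph (Fin n)) (W : Finset (Fin n)) (x : Fin n) :
    gi G (W.erase x) = (gi G W).comap (em W x) := by
  ext i j
  change G.Adj ((W.erase x).orderEmbOfFin rfl i) ((W.erase x).orderEmbOfFin rfl j) ↔
    G.Adj (W.orderEmbOfFin rfl (em W x i)) (W.orderEmbOfFin rfl (em W x j))
  rw [emb_em, emb_em]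

theorem map_comap_leaf {V W : Type} (e : W ↪ V) (H : SimpleGraph V) (x y : V)
    (he : ∀ v, v ∈ Set.range e ↔ v ≠ x) (hu : ∀ z, H.Adj x z → z = y) :
    (H.comap e).map e = H.deleteEdges {s(x, y)} := by
  ext u v
  rw [SimpleGraph.map_adj, SimpleGraph.deleteEdges_adj]
  constructor
  · rintro ⟨a, b, hab, rfl, rfl⟩
    refine ⟨hab, fun h => ?_⟩
    have ha : e a ≠ x := (he _).1 ⟨a, rfl⟩
    have hb : e b ≠ x := (he _).1 ⟨b, rfl⟩
    rw [Set.mem_singleton_iff, Sym2.eq_iff] at h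
    rcases h with ⟨h1, -⟩ | ⟨-, h2⟩
    · exact ha h1
    · exact hb h2
  · rintro ⟨h, hn⟩
    have hu1 : u ≠ x := by
      rintro rfl
      exact hn (by rw [hu v h]; rfl)
    have hv1 : v ≠ x := by
      rintro rfl
      refine hn ?_
      rw [hu u h.symm, Set.mem_singleton_iff, Sym2.eq_swap]
    obtain ⟨a, rfl⟩ := (he u).2 hu1
    obtain ⟨b, rfl⟩ := (he v).2 hv1
    exact ⟨a, b, h, rfl, rfl⟩

/-- **LFG** -/
theorem goalLFG (hISO : Pool.Agent.Helper26.AL.StmtISO) (hPEN : Pool.Agent.Helper26.AL.StmtPEN)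
    (hLFC : Pool.Agent.Helper26.AL.StmtLFC) (hMONO : Pool.Agent.Helper26.AF.StmtMONO) :
    Pool.Agent.Helper26.AL.StmtLFG := by
  intro n G W x y hx hy hxy hu
  have hadj : (gi G W).Adj (ix W x hx) (ix W y hy) := by
    change G.Adj (W.orderEmbOfFin rfl (ix W x hx)) (W.orderEmbOfFin rfl (ix W y hy))
    rw [emb_ix, emb_ix]
    exact hxy
  have hleaf : ∀ z, (gi G W).Adj (ix W x hx) z → z = ix W y hy := by
    intro z hz
    change G.Adj (W.orderEmbOfFin rfl (ix W x hx)) (W.orderEmbOfFin rfl z) at hz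
    rw [emb_ix] at hz
    exact ix_eq W y hy z (hu _ (W.orderEmbOfFin_mem rfl z) hz)
  rw [gi_erase]
  refine ⟨(hLFC _ _ (em W x) (gi G W) _ _ (range_em W x hx) hadj hleaf).1, fun g => ?_⟩
  rw [← hISO _ _ (em W x) ((gi G W).comap (em W x)) g,
    map_comap_leaf (em W x) (gi G W) _ _ (range_em W x hx) hleaf]
  exact ⟨hPEN _ _ _ _ g hadj hleaf, hMONO _ _ _ g (SimpleGraph.deleteEdges_le _)⟩

end Pool.Agent.Helper49.AL
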