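import Pool.Agent.Helper26.AL.GoalsA

/-!
Project AL (MP_af6c86_pr), packet PW2: sums over pairs of disjoint closed sets.
-/

set_option autoImplicit false

namespace Pool.Agent.Helper49.AL

open Finset Pool.Agent.Helper26.AF Pool.Agent.Helper26.AL

theorem pairs_sum {α : Type} [DecidableEq α] (C : Finset α) (w : α → ℝ)
    (g : Finset α → Finset α → ℝ)
    (h1 : ∀ A ⊆ C, ∀ B ⊆ C, Disjoint A B → g A B = (∏ Q ∈ A, w Q) * ∏ Q ∈ B, w Q)
    (h2 : ∀ A ⊆ C, ∀ B ⊆ C, ¬ Disjoint A B → g A B = 0) :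
    ∑ A ∈ C.powerset, ∑ B ∈ C.powerset, g A B = ∏ Q ∈ C, (1 + 2 * w Q) := by
  have e1 : ∏ Q ∈ C, (1 + 2 * w Q) = ∏ Q ∈ C, (w Q + (1 + w Q)) :=
    Finset.prod_congr rfl fun Q _ => by ring
  rw [e1, Finset.prod_add]
  refine Finset.sum_congr rfl fun A hA => ?_
  rw [Finset.mem_powerset] at hA
  rw [Finset.prod_one_add, Finset.mul_sum]
  symm
  have e2 : ∑ B ∈ (C \ A).powerset, (∏ Q ∈ A, w Q) * ∏ Q ∈ B, w Q
      = ∑ B ∈ (C \ A).powerset, g A B := by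
    refine Finset.sum_congr rfl fun B hB => ?_
    rw [Finset.mem_powerset] at hB
    refine (h1 A hA B (hB.trans Finset.sdiff_subset) ?_).symm
    rw [Finset.disjoint_left]
    intro x hx hx'
    exact (Finset.mem_sdiff.1 (hB hx')).2 hx
  rw [e2]
  refine Finset.sum_subset (Finset.powerset_mono.2 Finset.sdiff_subset) fun B hB hB' => ?_
  rw [Finset.mem_powerset] at hB hB'
  refine h2 A hA B hB fun hd => hB' ?_
  intro x hx
  exact Finset.mem_sdiff.2 ⟨hB hx, fun hx' => Finset.disjoint_left.1 hd hx' hx⟩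

open Classical in
/-- **PW2** -/
theorem goalPW2 (hCLO : Pool.Agent.Helper26.AL.StmtCLO) : Pool.Agent.Helper26.AL.StmtPW2 := by
  intro n R s G
  obtain ⟨ha, hb, hc⟩ := hCLO n R G
  set Ψ : Finset (Fin n) → Finset (Fin n) → ℝ := fun U₁ U₂ =>
    if Disjoint U₁ U₂ then s ^ ((ne (gi G U₁) - #U₁) + (ne (gi G U₂) - #U₂)) else 0 with hΨ
  have e1 : ∀ U₁ U₂ : Finset (Fin n),
      (if Disjoint U₁ U₂ ∧ (Clo G U₁ ∧ Clo G U₂) ∧ CXR R (gi G U₁) ∧ CXR R (gi G U₂)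
        then s ^ ((ne (gi G U₁) - #U₁) + (ne (gi G U₂) - #U₂)) else 0)
      = if Clo G U₁ ∧ CXR R (gi G U₁) then
          (if Clo G U₂ ∧ CXR R (gi G U₂) then Ψ U₁ U₂ else 0) else 0 := by
    intro U₁ U₂
    simp only [hΨ]
    by_cases p1 : Disjoint U₁ U₂ <;> by_cases p2 : Clo G U₁ <;> by_cases p3 : Clo G U₂ <;>
      by_cases p4 : CXR R (gi G U₁) <;> by_cases p5 : CXR R (gi G U₂) <;>
      simp [p1, p2, p3, p4, p5]
  have e2 : (∑ U₁ : Finset (Fin n), ∑ U₂ : Finset (Fin n),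
      if Disjoint U₁ U₂ ∧ (Clo G U₁ ∧ Clo G U₂) ∧ CXR R (gi G U₁) ∧ CXR R (gi G U₂)
        then s ^ ((ne (gi G U₁) - #U₁) + (ne (gi G U₂) - #U₂)) else 0)
      = ∑ U₁ : Finset (Fin n), if Clo G U₁ ∧ CXR R (gi G U₁) then
          (∑ U₂ : Finset (Fin n), if Clo G U₂ ∧ CXR R (gi G U₂) then Ψ U₁ U₂ else 0) else 0 := by
    refine Finset.sum_congr rfl fun U₁ _ => ?_
    rw [Finset.sum_congr rfl fun U₂ _ => e1 U₁ U₂]
    by_cases p : Clo G U₁ ∧ CXR R (gi G U₁)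
    · rw [if_pos p]
      refine Finset.sum_congr rfl fun U₂ _ => ?_
      rw [if_pos p]
    · rw [if_neg p]
      refine Finset.sum_eq_zero fun U₂ _ => ?_
      rw [if_neg p]
  refine e2.trans ?_
  have e3 := hc fun U₁ => ∑ U₂ : Finset (Fin n), if Clo G U₂ ∧ CXR R (gi G U₂)
    then Ψ U₁ U₂ else 0
  refine e3.trans ?_
  have e4 : ∀ A ∈ (cxs R G).powerset, (∑ U₂ : Finset (Fin n), if Clo G U₂ ∧ CXR R (gi G U₂)
      then Ψ (A.sup id) U₂ else 0) = ∑ B ∈ (cxs R G).powerset, Ψ (A.sup id) (B.sup id) :=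
    fun A _ => hc (Ψ (A.sup id))
  rw [Finset.sum_congr rfl e4]
  -- the excess of a union
  have hexc : ∀ A ⊆ cxs R G, s ^ (ne (gi G (A.sup id)) - #(A.sup id))
      = ∏ Q ∈ A, s ^ (eIn G Q - #Q) := by
    intro A hA
    obtain ⟨-, -, h3, h4⟩ := ha A hA
    rw [Finset.prod_pow_eq_pow_sum, h3, h4]
    congr 1
    have h5 : ∑ Q ∈ A, eIn G Q = ∑ Q ∈ A, (eIn G Q - #Q) + ∑ Q ∈ A, #Q := by
      rw [← Finset.sum_add_distrib]
      refine Finset.sum_congr rfl fun Q hQ => ?_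
      have h6 := hA hQ
      simp only [cxs, Finset.mem_filter] at h6
      omega
    omega
  refine pairs_sum (cxs R G) (fun Q => s ^ (eIn G Q - #Q))
    (fun A B => Ψ (A.sup id) (B.sup id)) ?_ ?_
  · intro A hA B hB hd
    have hd' := (hb A hA B hB).2 hd
    simp only [hΨ]
    rw [if_pos hd', pow_add, hexc A hA, hexc B hB]
  · intro A hA B hB hd
    have hd' : ¬ Disjoint (A.sup id) (B.sup id) := fun h => hd ((hb A hA B hB).1 h)
    simp only [hΨ]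
    rw [if_neg hd']

end Pool.Agent.Helper49.AL
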